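import Pool.Agent.Lib.MP_b5021c_nt.IfaceB

/-!
# MP_b5021c_nt, row PRI: primitive elements
-/

namespace Pool.Agent.B5.H14

open scoped LaurentPolynomial

section

variable {O : Type} [CommRing O] {L : Type} [AddCommGroup L]

theorem coeff_cst_mul (c : RO O) (G : AO O L) (a : L) :
    (cst c * G).coeff a = c * G.coeff a := by
  unfold cst
  exact AddMonoidAlgebra.coeff_single_zero_mul _ _ _

theorem cst_dvd_iff (c : RO O) (G : AO O L) : cst c ∣ G ↔ ∀ a : L, c ∣ G.coeff a := by
  classical
  constructor
  · rintro ⟨K, rfl⟩ a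
    rw [coeff_cst_mul]
    exact Dvd.intro _ rfl
  · intro h
    choose f hf using h
    refine ⟨AddMonoidAlgebra.ofCoeff (Finsupp.onFinset G.coeff.support
      (fun a => if G.coeff a = 0 then 0 else f a) (fun a ha => ?_)), ?_⟩
    · rw [Finsupp.mem_support_iff]
      intro h0
      exact ha (if_pos h0)
    · ext1
      refine Finsupp.ext fun a => ?_
      rw [coeff_cst_mul, AddMonoidAlgebra.coeff_ofCoeff, Finsupp.onFinset_apply]
      by_cases h0 : G.coeff a = 0
      · rw [if_pos h0, mul_zero, h0]
      · rw [if_neg h0]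
        exact hf a

theorem cst_mul (c d : RO O) : (cst (c * d) : AO O L) = cst c * cst d := by
  unfold cst
  rw [AddMonoidAlgebra.single_mul_single, add_zero]

theorem cst_one : (cst 1 : AO O L) = 1 := rfl

theorem isUnit_of_cst (c : RO O) (h : IsUnit (cst c : AO O L)) : IsUnit c := by
  obtain ⟨K, hK⟩ := h.exists_right_inv
  have h1 : c * K.coeff 0 = 1 := by
    rw [← coeff_cst_mul, hK]
    rw [AddMonoidAlgebra.one_def, AddMonoidAlgebra.coeff_single, Finsupp.single_eq_same]
  exact IsUnit.of_mul_eq_one _ h1

end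

theorem prime_cst {O : Type} [CommRing O] [IsDomain O] [IsPrincipalIdealRing O]
    {L : Type} [AddCommGroup L] [Module.Free ℤ L] [Module.Finite ℤ L] (p : RO O) (hp : Prime p)
    (G H : AO O L) (h : cst p ∣ G * H) : cst p ∣ G ∨ cst p ∣ H := by
  have hP : (Ideal.span {p}).IsPrime := (Ideal.span_singleton_prime hp.ne_zero).2 hp
  have key : ∀ F : AO O L,
      AddMonoidAlgebra.mapRingHom L (Ideal.Quotient.mk (Ideal.span {p})) F = 0 ↔ cst p ∣ F := by
    intro F
    rw [cst_dvd_iff]
    constructor
    · intro h0 a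
      have h1 : (AddMonoidAlgebra.mapRingHom L (Ideal.Quotient.mk (Ideal.span {p})) F).coeff a = 0 := by
        rw [h0]; rfl
      rw [AddMonoidAlgebra.coeff_mapRingHom, Ideal.Quotient.eq_zero_iff_mem,
        Ideal.mem_span_singleton] at h1
      exact h1
    · intro h0
      ext1
      refine Finsupp.ext fun a => ?_
      rw [AddMonoidAlgebra.coeff_mapRingHom]
      exact (Ideal.Quotient.eq_zero_iff_mem.2 (Ideal.mem_span_singleton.2 (h0 a)))
  have hm := (key (G * H)).2 h
  rw [map_mul] at hm
  have : IsDomain (RO O ⧸ Ideal.span {p}) := Ideal.Quotient.isDomain _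
  rcases mul_eq_zero.1 hm with h1 | h1
  · exact Or.inl ((key G).1 h1)
  · exact Or.inr ((key H).1 h1)

/-- PRI. -/
theorem pri (hU : UnitAS) : PrimS := by
  intro O _ _ _ _ L _ _ _ G H
  refine ⟨?_, ?_, ?_⟩
  · intro hG hH c hc
    by_contra hcu
    by_cases hc0 : c = 0
    · subst hc0
      have h0 : (0 : AO O L) ∣ G * H := by
        have h1 : (cst (0 : RO O) : AO O L) = 0 := by
          unfold cst
          exact AddMonoidAlgebra.single_zero _
        rwa [h1] at hc
      rcases mul_eq_zero.1 (zero_dvd_iff.1 h0) with h1 | h1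
      · exact hcu (hG 0 (by rw [h1]; exact dvd_zero _))
      · exact hcu (hH 0 (by rw [h1]; exact dvd_zero _))
    · obtain ⟨p, hp, hpc⟩ := WfDvdMonoid.exists_irreducible_factor hcu hc0
      have hpp : Prime p := UniqueFactorizationMonoid.irreducible_iff_prime.1 hp
      have hdc : (cst p : AO O L) ∣ cst c := by
        obtain ⟨d, rfl⟩ := hpc
        rw [cst_mul]
        exact Dvd.intro _ rfl
      rcases prime_cst p hpp G H (hdc.trans hc) with h1 | h1
      · exact hp.not_isUnit (hG p h1)
      · exact hp.not_isUnit (hH p h1)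
  · rintro hG ⟨a, ha, b, hb, hab⟩ c ⟨K, hK⟩
    rcases hG.isUnit_or_isUnit hK with h1 | h1
    · exact isUnit_of_cst c h1
    · exfalso
      obtain ⟨e, d, -, hKe⟩ := (hU O L K).1 h1
      have hsupp : ∀ x ∈ supp G, x = e := by
        intro x hx
        by_contra hne
        apply hx
        rw [hK, coeff_cst_mul, hKe]
        have : (AddMonoidAlgebra.single e d : AO O L).coeff x = 0 := by
          rw [AddMonoidAlgebra.coeff_single]
          exact Finsupp.single_eq_of_ne hne
        rw [this, mul_zero]
      exact hab ((hsupp a ha).trans (hsupp b hb).symm)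
  · intro hG
    have wf : WfDvdMonoid (AO O L) := inferInstance
    induction G using wf.wf.induction with
    | _ G ih =>
      by_cases hp : Prim G
      · exact ⟨1, G, one_ne_zero, by rw [cst_one, one_mul], hp⟩
      · have hp2 : ∃ c : RO O, cst c ∣ G ∧ ¬ IsUnit c := by
          by_contra hno
          push Not at hno
          exact hp fun c hc => hno c hc
        obtain ⟨c, ⟨K, hK⟩, hcu⟩ := hp2
        have hK0 : K ≠ 0 := by
          rintro rfl
          exact hG (by rw [hK, mul_zero])
        have hc0 : c ≠ 0 := by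
          rintro rfl
          apply hG
          rw [hK]
          have h1 : (cst (0 : RO O) : AO O L) = 0 := by
            unfold cst
            exact AddMonoidAlgebra.single_zero _
          rw [h1, zero_mul]
        obtain ⟨c', G', hc', hKG, hP⟩ := ih K ⟨hK0, cst c, fun hu => hcu (isUnit_of_cst c hu),
          by rw [hK, mul_comm]⟩ hK0
        exact ⟨c * c', G', mul_ne_zero hc0 hc', by rw [hK, hKG, cst_mul, mul_assoc], hP⟩

end Pool.Agent.B5.H14
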