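import Pool.Agent.Lib.MP_b5021c_nt.IfaceS4

/-!
# MP_b5021c_nt, row U_RKB: rank of the support of a closed element without small non-pure factors,
with the pointwise identity of a pure factor
-/

namespace Pool.Agent.B5.H14

open scoped LaurentPolynomial

/-- RKB. -/
theorem rkb : PurS → G1pS → G1S → RkbS := by
  intro hPur hG1p hG1 O _ _ _ _ P L _ _ _ _ _ phi D S i0 eta h c n G fd hsnp
  by_cases hc : ∃ (i : Fin n) (b : Ker (co phi i0)), ¬ 1 < M ((G i).coeff 0) ∧
      Pure phi S i0 (G i) ∧ b ∈ supp (G i) ∧ Ray (cl (co phi i0) S h eta D) b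
  · right
    obtain ⟨i, b, h1, h2, h3, h4⟩ := hc
    have h5 := hG1 O P L phi D S i0 eta h c n G fd
    rw [hsnp, Finset.card_empty, add_zero] at h5
    exact ⟨h5, hPur O P L phi D S i0 eta h c n G fd i b h1 h2 h3 h4⟩
  · left
    have h5 := hG1p O P L phi D S i0 eta h c n G fd
      fun i b h1 h2 h3 h4 => hc ⟨i, b, h1, h2, h3, h4⟩
    rwa [hsnp, Finset.card_empty, add_zero] at h5

end Pool.Agent.B5.H14
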