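import Pool.Agent.Lib.MP_b5021c_nt.IfaceE2

/-!
Row E2_PSC: the function `C` of the Poisson inequality.
-/

set_option autoImplicit false

namespace Pool.Agent.B5.H14

open Polynomial
open scoped Topology ComplexConjugate

theorem psc_max {f : ℂ → ℂ} (hf : ∀ z, ‖z‖ ≤ 1 → DifferentiableAt ℂ f z)
    (h1 : ∀ z, ‖z‖ = 1 → ‖f z‖ ≤ 1) : ∀ z, ‖z‖ ≤ 1 → ‖f z‖ ≤ 1 := by
  intro z hz
  have hb : Bornology.IsBounded (Metric.ball (0 : ℂ) 1) := Metric.isBounded_ball
  refine Complex.norm_le_of_forall_mem_frontier_norm_le hb (DifferentiableOn.diffContOnCl ?_) ?_ ?_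
  · intro w hw
    rw [closure_ball _ one_ne_zero, mem_closedBall_zero_iff] at hw
    exact (hf w hw).differentiableWithinAt
  · intro w hw
    rw [frontier_ball _ one_ne_zero, mem_sphere_zero_iff_norm] at hw
    exact h1 w hw
  · rw [closure_ball _ one_ne_zero, mem_closedBall_zero_iff]
    exact hz

theorem psc_circle (a z : ℂ) (hz : ‖z‖ = 1) : ‖1 - conj a * z‖ = ‖z - a‖ := by
  have h1 : z * conj z = 1 := by
    rw [Complex.mul_conj, Complex.normSq_eq_norm_sq, hz]
    norm_num
  have h2 : 1 - conj a * z = z * conj (z - a) := by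
    rw [map_sub, mul_sub, h1]
    ring
  rw [h2, norm_mul, hz, one_mul, RCLike.norm_conj]

theorem psc_ne (a z : ℂ) (ha : ‖a‖ < 1) (hz : ‖z‖ ≤ 1) : 1 - conj a * z ≠ 0 := by
  intro h
  have h1 : conj a * z = 1 := by linear_combination -h
  have h2 : ‖conj a * z‖ = 1 := by rw [h1, norm_one]
  rw [norm_mul, RCLike.norm_conj] at h2
  nlinarith [norm_nonneg a, norm_nonneg z]

theorem psc_mob (a w : ℂ) (ha : ‖a‖ < 1) (hw : ‖w‖ ≤ 1) : ‖w - a‖ ≤ ‖1 - conj a * w‖ := by
  have h1 : ‖1 - conj a * w‖ ^ 2 - ‖w - a‖ ^ 2 = (1 - ‖a‖ ^ 2) * (1 - ‖w‖ ^ 2) := by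
    rw [← Complex.normSq_eq_norm_sq, ← Complex.normSq_eq_norm_sq, ← Complex.normSq_eq_norm_sq,
      ← Complex.normSq_eq_norm_sq]
    simp only [Complex.normSq_apply, Complex.sub_re, Complex.sub_im, Complex.mul_re,
      Complex.mul_im, Complex.conj_re, Complex.conj_im, Complex.one_re, Complex.one_im]
    ring
  have h2 : 0 ≤ (1 - ‖a‖ ^ 2) * (1 - ‖w‖ ^ 2) := by
    apply mul_nonneg
    · nlinarith [norm_nonneg a]
    · nlinarith [norm_nonneg w]
  exact le_of_sq_le_sq (by linarith) (norm_nonneg _)
where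
  le_of_sq_le_sq {x y : ℝ} (h : x ^ 2 ≤ y ^ 2) (hy : 0 ≤ y) : x ≤ y := by
    exact le_of_sq_le_sq' h hy
  le_of_sq_le_sq' {x y : ℝ} (h : x ^ 2 ≤ y ^ 2) (hy : 0 ≤ y) : x ≤ y := by
    by_contra hc
    push Not at hc
    nlinarith

theorem psc_st : PscS := by
  intro p e a h
  set P : ℂ[X] := p + C ((1 : ℝ) : ℂ) * X * e with hP
  have hPev : ∀ z, P.eval z = p.eval z + z * e.eval z := by
    intro z
    rw [hP]
    simp
  have hP0 : P ≠ 0 := by
    intro h0
    have := h.nz 1 (by simp)
    rw [← hP, h0] at this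
    simp at this
  have hroot : a ∈ P.roots := by
    have h1 : a ∈ P.roots.filter (fun z => ‖z‖ < 1) := by
      rw [h.one]
      exact Multiset.mem_singleton_self a
    exact (Multiset.mem_filter.mp h1).1
  obtain ⟨s, hs⟩ : (X - C a) ∣ P := dvd_iff_isRoot.mpr (isRoot_of_mem_roots hroot)
  have hs0 : s ≠ 0 := by
    rintro rfl
    exact hP0 (by rw [hs, mul_zero])
  have hsev : ∀ z, p.eval z + z * e.eval z = (z - a) * s.eval z := by
    intro z
    rw [← hPev, hs]
    simp
  have hsne : ∀ z : ℂ, ‖z‖ ≤ 1 → s.eval z ≠ 0 := by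
    intro z hz h0
    rcases hz.lt_or_eq with h1 | h1
    · have h2 : P.roots = {a} + s.roots := by
        rw [hs, roots_mul (by rw [← hs]; exact hP0), roots_X_sub_C]
      have h3 := h.one
      rw [← hP, h2, Multiset.filter_add, Multiset.filter_singleton, if_pos h.a1] at h3
      have h4 : s.roots.filter (fun z => ‖z‖ < 1) = 0 := by
        have h5 : ({a} : Multiset ℂ) + s.roots.filter (fun z => ‖z‖ < 1) = {a} + 0 := by
          rw [h3, add_zero]
        exact add_left_cancel h5
      have h6 : z ∈ s.roots.filter (fun z => ‖z‖ < 1) :=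
        Multiset.mem_filter.mpr ⟨(mem_roots hs0).mpr h0, h1⟩
      rw [h4] at h6
      exact absurd h6 (Multiset.notMem_zero z)
    · have h2 := h.nz z h1
      rw [← hP, hPev, hsev, h0, mul_zero] at h2
      exact h2 rfl
  set f : ℂ[X] := X * e - p with hf
  have hfev : ∀ z, f.eval z = z * e.eval z - p.eval z := by
    intro z
    rw [hf]
    simp
  set K : ℂ[X] := 1 - C (conj a) * X with hK
  have hKev : ∀ z, K.eval z = 1 - conj a * z := by
    intro z
    rw [hK]
    simp
  -- the inequality |f| <= |s K| on the closed disc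
  have hfs : ∀ z : ℂ, ‖z‖ ≤ 1 → ‖f.eval z / (s.eval z * K.eval z)‖ ≤ 1 := by
    apply psc_max
    · intro z hz
      apply DifferentiableAt.div
      · exact f.differentiable z
      · exact (s.differentiable z).mul (K.differentiable z)
      · rw [hKev]
        exact mul_ne_zero (hsne z hz) (psc_ne a z h.a1 hz)
    · intro z hz
      have h1 : 0 < ‖s.eval z * K.eval z‖ := by
        rw [norm_pos_iff, hKev]
        exact mul_ne_zero (hsne z hz.le) (psc_ne a z h.a1 hz.le)
      rw [norm_div, div_le_one h1, norm_mul, hKev, psc_circle a z hz, ← norm_mul, mul_comm,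
        ← hsev, hfev]
      have h2 := h.re z hz
      have h3 : ‖z * e.eval z - p.eval z‖ ^ 2 ≤ ‖p.eval z + z * e.eval z‖ ^ 2 := by
        have h4 : ‖p.eval z + z * e.eval z‖ ^ 2 - ‖z * e.eval z - p.eval z‖ ^ 2 =
            4 * (p.eval z * conj (z * e.eval z)).re := by
          generalize z * e.eval z = w
          generalize p.eval z = v
          rw [← Complex.normSq_eq_norm_sq, ← Complex.normSq_eq_norm_sq]
          simp only [Complex.normSq_apply, Complex.sub_re, Complex.sub_im, Complex.mul_re,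
            Complex.add_re, Complex.add_im, Complex.conj_re, Complex.conj_im]
          ring
        have h5 : 0 ≤ (p.eval z * conj (z * e.eval z)).re := h2
        linarith
      exact abs_le_of_sq_le_sq' h3
  set D1 : ℂ[X] := s * K - C (conj a) * f with hD1
  have hD1ev : ∀ z, D1.eval z = s.eval z * (1 - conj a * z) - conj a * f.eval z := by
    intro z
    rw [hD1, eval_sub, eval_mul, hKev]
    simp
  set N : ℂ[X] := f - C a * (s * K) with hN
  have hNev : ∀ z, N.eval z = f.eval z - a * (s.eval z * (1 - conj a * z)) := by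
    intro z
    rw [hN, eval_sub, eval_mul, eval_mul, hKev]
    simp
  have hps : p.eval 0 = -a * s.eval 0 := by
    have := hsev 0
    linear_combination this
  have hN0 : N.coeff 0 = 0 := by
    rw [coeff_zero_eq_eval_zero, hNev, hfev]
    linear_combination -hps
  obtain ⟨N1, hN1⟩ : X ∣ N := X_dvd_iff.mpr hN0
  have hN1ev : ∀ z, z * N1.eval z = f.eval z - a * (s.eval z * (1 - conj a * z)) := by
    intro z
    rw [← hNev, hN1]
    simp
  have hsumP : D1 + N1 = C 2 * K * e := by
    have h1 : X * (D1 + N1) = X * (C 2 * K * e) := by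
      have h2 : (X * N1 : ℂ[X]) = f - C a * (s * K) := by rw [← hN1]
      have h3 : (X - C a) * s = p + X * e := by
        rw [← hs, hP]
        simp
      calc X * (D1 + N1) = X * D1 + X * N1 := by ring
        _ = X * (s * K - C (conj a) * f) + (f - C a * (s * K)) := by rw [h2]
        _ = K * ((X - C a) * s) + (1 - C (conj a) * X) * f := by ring
        _ = K * (p + X * e) + K * f := by rw [h3]
        _ = X * (C 2 * K * e) := by
          rw [hf]
          have : (C 2 : ℂ[X]) = 2 := rfl
          rw [this]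
          ring
    exact mul_left_cancel₀ X_ne_zero h1
  have hsum : ∀ z, D1.eval z + N1.eval z = 2 * (1 - conj a * z) * e.eval z := by
    intro z
    rw [← eval_add, hsumP, eval_mul, eval_mul, hKev]
    simp
  have hD1ne : ∀ z : ℂ, ‖z‖ ≤ 1 → D1.eval z ≠ 0 := by
    intro z hz h0
    have h1 := hfs z hz
    rw [hKev] at h1
    have h2 : s.eval z * (1 - conj a * z) ≠ 0 := mul_ne_zero (hsne z hz) (psc_ne a z h.a1 hz)
    have h3 : 1 - conj a * (f.eval z / (s.eval z * (1 - conj a * z))) = 0 := by
      rw [hD1ev] at h0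
      generalize s.eval z * (1 - conj a * z) = m at h0 h2 ⊢
      field_simp
      linear_combination h0
    exact psc_ne a _ h.a1 h1 h3
  have hND : ∀ z : ℂ, ‖z‖ ≤ 1 → ‖N1.eval z / D1.eval z‖ ≤ 1 := by
    apply psc_max
    · intro z hz
      exact (N1.differentiable z).div (D1.differentiable z) (hD1ne z hz)
    · intro z hz
      have hz0 : z ≠ 0 := by
        rintro rfl
        simp at hz
      have h1 := hfs z hz.le
      rw [hKev] at h1
      have h2 : s.eval z * (1 - conj a * z) ≠ 0 :=
        mul_ne_zero (hsne z hz.le) (psc_ne a z h.a1 hz.le)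
      have h3 := psc_mob a _ h.a1 h1
      have h4 : ‖N1.eval z / D1.eval z‖ =
          ‖f.eval z / (s.eval z * (1 - conj a * z)) - a‖ /
            ‖1 - conj a * (f.eval z / (s.eval z * (1 - conj a * z)))‖ := by
        have h5 : f.eval z / (s.eval z * (1 - conj a * z)) - a =
            z * N1.eval z / (s.eval z * (1 - conj a * z)) := by
          rw [hN1ev]
          generalize s.eval z * (1 - conj a * z) = m at h2 ⊢
          field_simp
        have h6 : 1 - conj a * (f.eval z / (s.eval z * (1 - conj a * z))) =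
            D1.eval z / (s.eval z * (1 - conj a * z)) := by
          rw [hD1ev, eq_div_iff h2, sub_mul, one_mul, mul_assoc, div_mul_cancel₀ _ h2]
        rw [h5, h6, norm_div, norm_div, norm_div, norm_mul, hz, one_mul]
        have h7 : ‖s.eval z * (1 - conj a * z)‖ ≠ 0 := norm_ne_zero_iff.mpr h2
        have h8 : ‖D1.eval z‖ ≠ 0 := norm_ne_zero_iff.mpr (hD1ne z hz.le)
        field_simp
      rw [h4]
      exact div_le_one_of_le₀ h3 (norm_nonneg _)
  have hden : ∀ z : ℂ, ‖z‖ < 1 → 2 * (1 - conj a * z) * e.eval z ≠ 0 := by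
    intro z hz
    exact mul_ne_zero (mul_ne_zero two_ne_zero (psc_ne a z h.a1 hz.le)) (h.e0 z hz)
  refine ⟨fun z => (D1.eval z - N1.eval z) / (2 * (1 - conj a * z) * e.eval z), ?_, ?_, ?_, ?_⟩
  · intro z hz
    rw [mem_ball_zero_iff] at hz
    apply DifferentiableAt.differentiableWithinAt
    apply DifferentiableAt.div
    · exact (D1.differentiable z).sub (N1.differentiable z)
    · have : (fun z => 2 * (1 - conj a * z) * e.eval z) = fun z => (C 2 * K * e).eval z := by
        funext w
        rw [eval_mul, eval_mul, hKev]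
        simp
      rw [this]
      exact (C 2 * K * e).differentiable z
    · exact hden z hz
  · intro z hz
    have h1 := hND z hz.le
    have h2 : ‖N1.eval z‖ ≤ ‖D1.eval z‖ := by
      rw [norm_div, div_le_one (norm_pos_iff.mpr (hD1ne z hz.le))] at h1
      exact h1
    have h3 : ((D1.eval z - N1.eval z) / (2 * (1 - conj a * z) * e.eval z)).re =
        (‖D1.eval z‖ ^ 2 - ‖N1.eval z‖ ^ 2) / ‖D1.eval z + N1.eval z‖ ^ 2 := by
      rw [← hsum, ← Complex.normSq_eq_norm_sq, ← Complex.normSq_eq_norm_sq,
        ← Complex.normSq_eq_norm_sq]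
      generalize D1.eval z = x
      generalize N1.eval z = y
      rw [Complex.div_re]
      simp only [Complex.normSq_apply, Complex.sub_re, Complex.sub_im, Complex.add_re,
        Complex.add_im]
      rw [← add_div]
      congr 1
      ring
    show 0 ≤ ((D1.eval z - N1.eval z) / (2 * (1 - conj a * z) * e.eval z)).re
    rw [h3]
    apply div_nonneg _ (sq_nonneg _)
    nlinarith [norm_nonneg (N1.eval z)]
  · have h1 := hsum 0
    have h2 := hD1ev 0
    have h3 := hfev 0
    have he := h.e0 0 (by simp)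
    have ha := h.a0
    simp only [mul_zero, sub_zero, mul_one, zero_mul, zero_sub] at h1 h2 h3 ⊢
    rw [h3] at h2
    have h4 : s.eval 0 = -p.eval 0 / a := by
      rw [hps]
      field_simp
    have h5 : N1.eval 0 = 2 * e.eval 0 - D1.eval 0 := by linear_combination h1
    rw [h5, h2, h4]
    field_simp
    ring
  · intro z hz hz0 hza
    have h1 := hden z hz
    have h2 : z - a ≠ 0 := sub_ne_zero.mpr hza
    have h3 := psc_ne a z h.a1 hz.le
    have h4 := h.e0 z hz
    have h5 : z * (D1.eval z - N1.eval z) =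
        (1 - conj a * z) * (z + a) * s.eval z - (1 + conj a * z) * f.eval z := by
      have := hN1ev z
      rw [hD1ev]
      linear_combination -this
    have h6 : (z - a) * (z * (D1.eval z - N1.eval z)) =
        2 * z * ((1 - ‖a‖ ^ 2 : ℂ) * p.eval z + (a - conj a * z ^ 2) * e.eval z) := by
      have h7 := hsev z
      have h8 := hfev z
      have h9 : (‖a‖ ^ 2 : ℂ) = a * conj a := by
        rw [Complex.mul_conj, Complex.normSq_eq_norm_sq]
        push_cast
        ring
      rw [h5, h8, h9]
      linear_combination -((1 - conj a * z) * (z + a)) * h7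
    have h10 : D1.eval z - N1.eval z =
        2 * ((1 - ‖a‖ ^ 2 : ℂ) * p.eval z + (a - conj a * z ^ 2) * e.eval z) / (z - a) := by
      rw [eq_div_iff h2]
      apply mul_left_cancel₀ hz0
      linear_combination h6
    show (D1.eval z - N1.eval z) / (2 * (1 - conj a * z) * e.eval z) = _
    have h11 : 1 - a / z ≠ 0 := by
      intro h0
      apply h2
      have h12 : a / z = 1 := by linear_combination -h0
      rw [div_eq_one_iff_eq hz0] at h12
      rw [h12, sub_self]
    rw [h10]
    field_simp
    ring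
where
  abs_le_of_sq_le_sq' {x y : ℂ} (h : ‖x‖ ^ 2 ≤ ‖y‖ ^ 2) : ‖x‖ ≤ ‖y‖ := by
    by_contra hc
    push Not at hc
    nlinarith [norm_nonneg x, norm_nonneg y]

theorem psc : PscS := psc_st

end Pool.Agent.B5.H14
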